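import Pool.Agent.H91.Irred

set_option autoImplicit false

open Subgroup
open scoped commutatorElement

namespace Pool.Agent.Results.MP_15b176_al.MaximalityCriterion

variable {F : Type*} [Group F]

/-- `ProperInvariant L K`: the subgroup `K` of `F` is `L`-invariant (`α(K) = K` for every `α ∈ L`) and
`1 < K < F`. -/
def ProperInvariant (L : Subgroup (MulAut F)) (K : Subgroup F) : Prop :=
  (∀ α ∈ L, K.map (α : F →* F) = K) ∧ K ≠ ⊥ ∧ K ≠ ⊤

/-- The inner automorphism group of `F`. -/
def Inn (F : Type*) [Group F] : Subgroup (MulAut F) := (MulAut.conj : F →* MulAut F).range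

theorem inv_iff (L : Subgroup (MulAut F)) (K : Subgroup F) :
    (∀ α ∈ L, K.map (α : F →* F) = K) ↔ ∀ α ∈ L, ∀ y ∈ K, α y ∈ K := by
  constructor
  · intro h α hα y hy
    have := h α hα
    rw [← this]
    exact ⟨y, hy, rfl⟩
  · intro h α hα
    apply le_antisymm
    · rintro _ ⟨y, hy, rfl⟩
      exact h α hα y hy
    · intro y hy
      exact ⟨α⁻¹ y, h _ (L.inv_mem hα) y hy, MulAut.apply_inv_self F α y⟩

theorem conj_aut (α : MulAut F) (x : F) : α * MulAut.conj x * α⁻¹ = MulAut.conj (α x) := by
  refine MulEquiv.ext fun y => ?_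
  simp [MulAut.mul_apply, MulAut.conj_apply]

theorem inn_normal : (Inn F).Normal := by
  refine ⟨?_⟩
  rintro _ ⟨x, rfl⟩ α
  exact ⟨α x, (conj_aut α x).symm⟩

/-- the preimage in `F` of a subgroup of `Aut F` -/
def pre (L : Subgroup (MulAut F)) : Subgroup F := L.comap (MulAut.conj : F →* MulAut F)

theorem pre_inv (L H : Subgroup (MulAut F)) (h : L ≤ H) : ∀ α ∈ L, ∀ y ∈ pre H, α y ∈ pre H := by
  intro α hα y hy
  change MulAut.conj (α y) ∈ H
  rw [← conj_aut]
  exact H.mul_mem (H.mul_mem (h hα) hy) (H.inv_mem (h hα))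

theorem mem_inn_of_mem (L : Subgroup (MulAut F)) {β : MulAut F} (h : β ∈ L ⊓ Inn F) :
    ∃ x ∈ pre L, MulAut.conj x = β := by
  obtain ⟨h1, x, rfl⟩ := h
  exact ⟨x, h1, rfl⟩

/-- Elements of `L Inn F`. -/
theorem mem_sup_inn (L : Subgroup (MulAut F)) {β : MulAut F} (h : β ∈ L ⊔ Inn F) :
    ∃ α ∈ L, ∃ x : F, β = α * MulAut.conj x := by
  have hn : (Inn F).Normal := inn_normal
  rw [Subgroup.mem_sup_of_normal_right] at h
  obtain ⟨α, hα, _, ⟨x, rfl⟩, rfl⟩ := h
  exact ⟨α, hα, x, rfl⟩

theorem pre_injective {H H' : Subgroup (MulAut F)} (h : H ≤ Inn F) (h' : H' ≤ Inn F)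
    (he : pre H = pre H') : H = H' := by
  apply le_antisymm
  · intro β hβ
    obtain ⟨x, rfl⟩ := h hβ
    have : x ∈ pre H := hβ
    rw [he] at this
    exact this
  · intro β hβ
    obtain ⟨x, rfl⟩ := h' hβ
    have : x ∈ pre H' := hβ
    rw [← he] at this
    exact this

theorem pre_inf_inn (L : Subgroup (MulAut F)) : pre (L ⊓ Inn F) = pre L := by
  apply le_antisymm
  · intro x hx; exact hx.1
  · intro x hx; exact ⟨hx, x, rfl⟩

theorem normalizer_inv (L : Subgroup (MulAut F)) (K : Subgroup F)
    (hK : ∀ α ∈ L, ∀ y ∈ K, α y ∈ K) :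
    ∀ α ∈ L, ∀ y ∈ normalizer (K : Set F), α y ∈ normalizer (K : Set F) := by
  intro α hα n hn
  rw [mem_normalizer_iff] at hn ⊢
  have hback : ∀ z, α z ∈ K ↔ z ∈ K := by
    intro z
    refine ⟨fun h => ?_, hK α hα z⟩
    have := hK _ (L.inv_mem hα) _ h
    rwa [MulAut.inv_apply_self] at this
  intro h
  obtain ⟨z, rfl⟩ := α.surjective h
  rw [← map_mul, ← map_inv, ← map_mul, hback, hback]
  exact hn z

theorem centralizer_inv (L : Subgroup (MulAut F)) (K : Subgroup F)
    (hK : ∀ α ∈ L, ∀ y ∈ K, α y ∈ K) :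
    ∀ α ∈ L, ∀ y ∈ centralizer (K : Set F), α y ∈ centralizer (K : Set F) := by
  intro α hα c hc
  rw [mem_centralizer_iff] at hc ⊢
  intro k hk
  have h1 := hK _ (L.inv_mem hα) _ hk
  have h2 := congrArg α (hc _ h1)
  rw [map_mul, map_mul, MulAut.apply_inv_self] at h2
  exact h2

section main

/-- In a simple group, an invariant subgroup which is unique is self-normalizing. -/
theorem normalizer_eq [IsSimpleGroup F] (L : Subgroup (MulAut F)) (K : Subgroup F)
    (hK : ProperInvariant L K) (huniq : ∀ Y, ProperInvariant L Y → Y = K) :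
    normalizer (K : Set F) = K := by
  obtain ⟨hinv, hbot, htop⟩ := hK
  have hinv' := (inv_iff L K).1 hinv
  apply huniq
  refine ⟨(inv_iff L _).2 (normalizer_inv L K hinv'), ?_, ?_⟩
  · intro h
    apply hbot
    rw [eq_bot_iff, ← h]
    exact le_normalizer
  · intro h
    have hn : K.Normal := normalizer_eq_top_iff.1 h
    rcases hn.eq_bot_or_eq_top with h | h
    · exact hbot h
    · exact htop h

variable [Finite F] [IsSimpleGroup F]

/-- In a finite simple group, an invariant subgroup which is unique is not abelian. -/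
theorem not_comm (L : Subgroup (MulAut F)) (K : Subgroup F)
    (hK : ProperInvariant L K) (huniq : ∀ Y, ProperInvariant L Y → Y = K) :
    ¬ ∀ a ∈ K, ∀ b ∈ K, a * b = b * a := by
  intro hcomm
  have hN := normalizer_eq L K hK huniq
  obtain ⟨hinv, hbot, htop⟩ := id hK
  have hinv' := (inv_iff L K).1 hinv
  have hcard : Nat.card K ≠ 1 := fun h => hbot (Subgroup.card_eq_one.1 h)
  obtain ⟨p, hp, hpK⟩ := Nat.exists_prime_and_dvd hcard
  have hpf : Fact p.Prime := ⟨hp⟩
  let E : Subgroup F :=
    { carrier := {b | b ∈ K ∧ b ^ p = 1}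
      mul_mem' := by
        rintro a b ⟨ha, ha'⟩ ⟨hb, hb'⟩
        refine ⟨K.mul_mem ha hb, ?_⟩
        rw [(show Commute a b from hcomm a ha b hb).mul_pow, ha', hb', one_mul]
      one_mem' := ⟨K.one_mem, one_pow _⟩
      inv_mem' := by
        rintro a ⟨ha, ha'⟩
        exact ⟨K.inv_mem ha, by rw [inv_pow, ha', inv_one]⟩ }
  have hEK : E = K := by
    apply huniq
    refine ⟨(inv_iff L E).2 ?_, ?_, ?_⟩
    · rintro α hα y ⟨hy, hy'⟩
      exact ⟨hinv' α hα y hy, by rw [← map_pow, hy', map_one]⟩
    · obtain ⟨x, hx⟩ := exists_prime_orderOf_dvd_card' p hpK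
      intro h
      have hxE : (x : F) ∈ E := by
        refine ⟨x.2, ?_⟩
        have : x ^ p = 1 := by rw [← hx]; exact pow_orderOf_eq_one x
        rw [← Subgroup.coe_pow, this, Subgroup.coe_one]
      rw [h, mem_bot] at hxE
      have h1 : x = 1 := Subtype.ext hxE
      rw [h1, orderOf_one] at hx
      exact hp.one_lt.ne hx
    · intro h
      apply htop
      rw [eq_top_iff, ← h]
      exact fun x hx => hx.1
  have hKp : IsPGroup p K := by
    intro a
    refine ⟨1, ?_⟩
    rw [pow_one]
    have : (a : F) ∈ E := by rw [hEK]; exact a.2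
    exact Subtype.ext this.2
  obtain ⟨n, hn⟩ := (IsPGroup.iff_card).1 hKp
  have hidx : ¬ p ∣ K.index := by
    intro h
    have h1 : p ^ (n + 1) ∣ Nat.card F := by
      rw [← K.card_mul_index, hn, pow_succ]
      exact Nat.mul_dvd_mul_left _ h
    have h2 := Sylow.prime_pow_dvd_card_normalizer h1 hn
    rw [hN, hn] at h2
    have h3 := Nat.le_of_dvd (pow_pos hp.pos n) h2
    exact absurd h3 (not_le.2 (Nat.pow_lt_pow_right hp.one_lt (Nat.lt_succ_self n)))
  let P : Sylow p F := hKp.toSylow hidx
  have hPK : (P : Subgroup F) = K := rfl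
  have hP : normalizer (P : Set F) ≤ centralizer (P : Set F) := by
    intro x hx
    have hx' : x ∈ K := by rw [← hN]; exact hx
    rw [mem_centralizer_iff]
    intro y hy
    exact hcomm y hy x hx'
  have hcompl := MonoidHom.ker_transferSylow_isComplement' P hP
  rcases (inferInstance : (MonoidHom.transferSylow P hP).ker.Normal).eq_bot_or_eq_top with h | h
  · rw [h, isComplement'_bot_left] at hcompl
    exact htop hcompl
  · rw [h, isComplement'_top_left] at hcompl
    exact hbot hcompl

/-- If there is a unique proper nontrivial `L`-invariant subgroup, then `L` is not solvable. -/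
theorem not_solvable (L : Subgroup (MulAut F)) (K : Subgroup F)
    (hK : ProperInvariant L K) (huniq : ∀ Y, ProperInvariant L Y → Y = K) :
    ¬ Group.IsSolvable L := by
  intro hL
  obtain ⟨hinv, hbot, htop⟩ := id hK
  have hinv' := (inv_iff L K).1 hinv
  have hnt : Nontrivial K := (Subgroup.nontrivial_iff_ne_bot K).2 hbot
  -- the restriction homomorphism
  let res : L →* MulAut K :=
    { toFun := fun α =>
        { toFun := fun x => ⟨(α : MulAut F) x, hinv' α α.2 x x.2⟩
          invFun := fun x => ⟨((α⁻¹ : L) : MulAut F) x, hinv' _ (α⁻¹).2 x x.2⟩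
          left_inv := fun x => Subtype.ext (MulAut.inv_apply_self F (α : MulAut F) (x : F))
          right_inv := fun x => Subtype.ext (MulAut.apply_inv_self F (α : MulAut F) (x : F))
          map_mul' := fun x y => Subtype.ext (map_mul (α : MulAut F) (x : F) (y : F)) }
      map_one' := MulEquiv.ext fun x => rfl
      map_mul' := fun α β => MulEquiv.ext fun x => rfl }
  have hres : ∀ (α : L) (x : K), ((res α x : K) : F) = (α : MulAut F) x := fun α x => rfl
  have hsol : Group.IsSolvable res.range := Group.isSolvable_of_surjective res.rangeRestrict_surjective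
  obtain ⟨p, hp, hpK⟩ := Pool.Agent.H91.isPGroup_of_solvable (K := K) res.range (by
    intro Y hY
    by_contra hcon
    push Not at hcon
    obtain ⟨hY1, hY2⟩ := hcon
    have h1 : Y.map K.subtype = K := by
      apply huniq
      refine ⟨(inv_iff L _).2 ?_, ?_, ?_⟩
      · rintro α hα _ ⟨y, hy, rfl⟩
        exact ⟨res ⟨α, hα⟩ y, hY _ ⟨⟨α, hα⟩, rfl⟩ y hy, rfl⟩
      · intro h
        exact hY1 ((Subgroup.map_eq_bot_iff_of_injective _ K.subtype_injective).1 h)
      · intro h
        apply htop
        rw [eq_top_iff, ← h]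
        exact Subgroup.map_subtype_le Y
    apply hY2
    rw [eq_top_iff]
    intro x _
    have hx : (x : F) ∈ Y.map K.subtype := by rw [h1]; exact x.2
    obtain ⟨y, hy, hyx⟩ := hx
    have : y = x := Subtype.ext hyx
    rw [← this]; exact hy)
  have hpf : Fact p.Prime := ⟨hp⟩
  -- the center of `K` is invariant
  have hcen : (center K).map K.subtype = K := by
    apply huniq
    refine ⟨(inv_iff L _).2 ?_, ?_, ?_⟩
    · rintro α hα _ ⟨y, hy, rfl⟩
      refine ⟨res ⟨α, hα⟩ y, ?_, rfl⟩
      rw [SetLike.mem_coe, mem_center_iff] at hy ⊢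
      intro g
      have h1 := hy ((res ⟨α, hα⟩).symm g)
      have h2 := congrArg (res ⟨α, hα⟩) h1
      rw [map_mul, map_mul, MulEquiv.apply_symm_apply] at h2
      exact h2
    · intro h
      have h1 := (Subgroup.map_eq_bot_iff_of_injective _ K.subtype_injective).1 h
      have h2 := hpK.center_nontrivial
      rw [Subgroup.nontrivial_iff_ne_bot] at h2
      exact h2 h1
    · intro h
      apply htop
      rw [eq_top_iff, ← h]
      exact Subgroup.map_subtype_le _
  refine not_comm L K hK huniq ?_
  intro a ha b hb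
  rw [← hcen] at ha
  obtain ⟨⟨a', ha'⟩, hac, rfl⟩ := ha
  have := (mem_center_iff.1 hac) ⟨b, hb⟩
  exact (congrArg Subtype.val this).symm

end main

/-- **Theorem.** Let `F` be a finite nonabelian simple group and let `L` be a subgroup of `Aut F`
which meets `Inn F` nontrivially or is solvable.  Then `F` has exactly one `L`-invariant subgroup
`K` with `1 < K < F` if and only if `L ∩ Inn F ≠ 1`, `L` is a maximal subgroup of `L Inn F`, and
`L ∩ Inn F` is a minimal normal subgroup of `L`.  In this case `K` corresponds to `L ∩ Inn F`, and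
`K` is nonabelian, self-normalizing and has trivial centralizer in `F`. -/
theorem result (F : Type*) [Group F] [Finite F] [IsSimpleGroup F]
    (hF : ¬ ∀ a b : F, a * b = b * a) (L : Subgroup (MulAut F))
    (hL : L ⊓ Inn F = ⊥ → Group.IsSolvable L) :
    ((∃! K : Subgroup F, ProperInvariant L K) ↔
      L ⊓ Inn F ≠ ⊥ ∧ L ≠ L ⊔ Inn F ∧
      (∀ H : Subgroup (MulAut F), L ≤ H → H ≤ L ⊔ Inn F → H = L ∨ H = L ⊔ Inn F) ∧
      (∀ M : Subgroup (MulAut F), M ≤ L ⊓ Inn F → (∀ α ∈ L, ∀ m ∈ M, α * m * α⁻¹ ∈ M) →
        M = ⊥ ∨ M = L ⊓ Inn F)) ∧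
    ∀ K : Subgroup F, ProperInvariant L K → (∀ Y, ProperInvariant L Y → Y = K) →
      K.map (MulAut.conj : F →* MulAut F) = L ⊓ Inn F ∧
      (¬ ∀ a ∈ K, ∀ b ∈ K, a * b = b * a) ∧ normalizer (K : Set F) = K ∧
      centralizer (K : Set F) = ⊥ := by
  have hpreinv := pre_inv L L le_rfl
  -- `pre L` is the unique subgroup
  have hpreTop : pre L = ⊤ → ∀ K, ¬ ProperInvariant L K := by
    intro h K hK
    have hK' := (inv_iff L K).1 hK.1
    have hn : K.Normal := by
      refine ⟨fun n hn g => ?_⟩
      have hg : g ∈ pre L := by rw [h]; trivial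
      exact hK' _ hg n hn
    rcases hn.eq_bot_or_eq_top with h | h
    · exact hK.2.1 h
    · exact hK.2.2 h
  have hinjconj : Function.Injective (MulAut.conj : F →* MulAut F) := by
    rw [← MonoidHom.ker_eq_bot_iff]
    rcases (inferInstance : (MulAut.conj : F →* MulAut F).ker.Normal).eq_bot_or_eq_top with h | h
    · exact h
    · exfalso
      apply hF
      intro a b
      have ha : a ∈ (MulAut.conj : F →* MulAut F).ker := by rw [h]; trivial
      rw [MonoidHom.mem_ker] at ha
      have h1 := DFunLike.congr_fun ha b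
      rw [MulAut.conj_apply, MulAut.one_apply, mul_inv_eq_iff_eq_mul] at h1
      exact h1
  have hpreBot : pre L = ⊥ ↔ L ⊓ Inn F = ⊥ := by
    constructor
    · intro h
      rw [eq_bot_iff]
      intro β hβ
      obtain ⟨x, hx, rfl⟩ := mem_inn_of_mem L hβ
      rw [h, mem_bot] at hx
      rw [hx, map_one]
      exact one_mem _
    · intro h
      rw [eq_bot_iff]
      intro x hx
      have h1 : MulAut.conj x ∈ L ⊓ Inn F := ⟨hx, x, rfl⟩
      rw [h, mem_bot] at h1
      rw [mem_bot]
      exact hinjconj (by rw [h1, map_one])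
  have hpre : ∀ K : Subgroup F, ProperInvariant L K → (∀ Y, ProperInvariant L Y → Y = K) →
      pre L = K := by
    intro K hK huniq
    apply huniq
    refine ⟨(inv_iff L _).2 hpreinv, ?_, fun h => hpreTop h K hK⟩
    intro h
    exact not_solvable L K hK huniq (hL (hpreBot.1 h))
  refine ⟨⟨?_, ?_⟩, ?_⟩
  · rintro ⟨K, hK, huniq⟩
    have hIK := hpre K hK huniq
    refine ⟨?_, ?_, ?_, ?_⟩
    · intro h
      apply hK.2.1
      rw [← hIK]
      exact hpreBot.2 h
    · intro h
      refine hpreTop ?_ K hK
      rw [eq_top_iff]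
      intro x _
      have : MulAut.conj x ∈ L ⊔ Inn F := mem_sup_right ⟨x, rfl⟩
      rw [← h] at this
      exact this
    · intro H hLH hH
      by_cases hT : pre H = ⊤
      · right
        apply le_antisymm hH
        refine sup_le hLH ?_
        rintro _ ⟨x, rfl⟩
        have : x ∈ pre H := by rw [hT]; trivial
        exact this
      · left
        have hHK : pre H = K := by
          apply huniq
          refine ⟨(inv_iff L _).2 (pre_inv L H hLH), ?_, hT⟩
          intro h
          apply hK.2.1
          rw [eq_bot_iff, ← h, ← hIK]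
          exact fun x hx => hLH hx
        apply le_antisymm _ hLH
        intro β hβ
        obtain ⟨α, hα, x, rfl⟩ := mem_sup_inn L (hH hβ)
        have h1 : MulAut.conj x ∈ H := by
          have := H.mul_mem (H.inv_mem (hLH hα)) hβ
          rwa [inv_mul_cancel_left] at this
        have h2 : x ∈ pre L := by
          rw [hIK, ← hHK]; exact h1
        exact L.mul_mem hα h2
    · intro M hM hMn
      by_cases hMb : M = ⊥
      · left; exact hMb
      · right
        have h1 : pre M = K := by
          apply huniq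
          refine ⟨(inv_iff L _).2 ?_, ?_, ?_⟩
          · intro α hα y hy
            change MulAut.conj (α y) ∈ M
            rw [← conj_aut]
            exact hMn α hα _ hy
          · intro h
            apply hMb
            rw [eq_bot_iff]
            intro β hβ
            obtain ⟨x, rfl⟩ := (hM hβ).2
            have : x ∈ pre M := hβ
            rw [h, mem_bot] at this
            rw [this, map_one]
            exact one_mem _
          · intro h
            apply hK.2.2
            rw [eq_top_iff, ← h, ← hIK]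
            exact fun x hx => (hM hx).1
        refine pre_injective (hM.trans inf_le_right) inf_le_right ?_
        rw [h1, pre_inf_inn, hIK]
  · rintro ⟨hne, hlt, hmax, hmin⟩
    have hIbot : pre L ≠ ⊥ := fun h => hne (hpreBot.1 h)
    have hItop : pre L ≠ ⊤ := by
      intro h
      apply hlt
      apply le_antisymm le_sup_left
      refine sup_le le_rfl ?_
      rintro _ ⟨x, rfl⟩
      have : x ∈ pre L := by rw [h]; trivial
      exact this
    refine ⟨pre L, ⟨(inv_iff L _).2 hpreinv, hIbot, hItop⟩, ?_⟩
    rintro Y ⟨hYinv, hYbot, hYtop⟩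
    have hY := (inv_iff L Y).1 hYinv
    -- `Z = Y ⊔ pre L`
    have hZinv : ∀ α ∈ L, ∀ y ∈ Y ⊔ pre L, α y ∈ Y ⊔ pre L := by
      intro α hα y hy
      have h1 : (Y ⊔ pre L).map (α : F →* F) ≤ Y ⊔ pre L := by
        rw [Subgroup.map_sup]
        refine sup_le_sup ?_ ?_
        · exact ((inv_iff L Y).2 hY α hα).le
        · exact ((inv_iff L _).2 hpreinv α hα).le
      exact h1 ⟨y, hy, rfl⟩
    let H : Subgroup (MulAut F) :=
      { carrier := {β | ∃ α ∈ L, ∃ z ∈ Y ⊔ pre L, β = α * MulAut.conj z}
        mul_mem' := by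
          rintro _ _ ⟨α, hα, z, hz, rfl⟩ ⟨α', hα', z', hz', rfl⟩
          refine ⟨α * α', L.mul_mem hα hα', α'⁻¹ z * z',
            mul_mem (hZinv _ (L.inv_mem hα') _ hz) hz', ?_⟩
          rw [map_mul, ← conj_aut, inv_inv]
          group
        one_mem' := ⟨1, L.one_mem, 1, one_mem _, by rw [map_one, mul_one]⟩
        inv_mem' := by
          rintro _ ⟨α, hα, z, hz, rfl⟩
          refine ⟨α⁻¹, L.inv_mem hα, α z⁻¹, hZinv α hα _ (inv_mem hz), ?_⟩
          rw [← conj_aut, map_inv]
          group }
    have hLH : L ≤ H := fun α hα => ⟨α, hα, 1, one_mem _, by rw [map_one, mul_one]⟩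
    have hHsup : H ≤ L ⊔ Inn F := by
      rintro _ ⟨α, hα, z, hz, rfl⟩
      exact mul_mem (mem_sup_left hα) (mem_sup_right ⟨z, rfl⟩)
    rcases hmax H hLH hHsup with hH | hH
    · have hYI : Y ≤ pre L := by
        intro y hy
        have h1 : MulAut.conj y ∈ H := ⟨1, L.one_mem, y, mem_sup_left hy, (one_mul _).symm⟩
        rw [hH] at h1
        exact h1
      rcases hmin (Y.map (MulAut.conj : F →* MulAut F)) (by
        rintro _ ⟨y, hy, rfl⟩
        exact ⟨hYI hy, y, rfl⟩) (by
        rintro α hα _ ⟨y, hy, rfl⟩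
        rw [conj_aut]
        exact ⟨α y, hY α hα y hy, rfl⟩) with h | h
      · exfalso
        exact hYbot ((Subgroup.map_eq_bot_iff_of_injective _ hinjconj).1 h)
      · apply le_antisymm hYI
        intro x hx
        have h1 : MulAut.conj x ∈ L ⊓ Inn F := ⟨hx, x, rfl⟩
        rw [← h] at h1
        obtain ⟨y, hy, hyx⟩ := h1
        rw [← hinjconj hyx]
        exact hy
    · exfalso
      have hZtop : Y ⊔ pre L = ⊤ := by
        rw [eq_top_iff]
        intro x _
        have h1 : MulAut.conj x ∈ H := by
          rw [hH]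
          exact mem_sup_right ⟨x, rfl⟩
        obtain ⟨α, hα, z, hz, hxz⟩ := h1
        have h2 : MulAut.conj (x * z⁻¹) = α := by
          rw [map_mul, hxz, map_inv, mul_inv_cancel_right]
        have h3 : x * z⁻¹ ∈ pre L := by
          change MulAut.conj (x * z⁻¹) ∈ L
          rw [h2]; exact hα
        have h4 := mul_mem (mem_sup_right h3 : x * z⁻¹ ∈ Y ⊔ pre L) hz
        rwa [inv_mul_cancel_right] at h4
      have hYn : normalizer (Y : Set F) = ⊤ := by
        rw [eq_top_iff, ← hZtop]
        refine sup_le le_normalizer ?_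
        intro i hi
        rw [mem_normalizer_iff]
        intro h
        constructor
        · intro hh
          exact hY _ hi h hh
        · intro hh
          have h5 := hY _ (L.inv_mem hi) _ hh
          have h6 : (MulAut.conj i)⁻¹ (i * h * i⁻¹) = h := by
            rw [← MulAut.conj_apply, MulAut.inv_apply_self]
          rwa [h6] at h5
      have hn : Y.Normal := normalizer_eq_top_iff.1 hYn
      rcases hn.eq_bot_or_eq_top with h | h
      · exact hYbot h
      · exact hYtop h
  · intro K hK huniq
    have hIK := hpre K hK huniq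
    have hnc := not_comm L K hK huniq
    refine ⟨?_, hnc, normalizer_eq L K hK huniq, ?_⟩
    · apply le_antisymm
      · rintro _ ⟨x, hx, rfl⟩
        rw [← hIK] at hx
        exact ⟨hx, x, rfl⟩
      · intro β hβ
        obtain ⟨x, hx, rfl⟩ := mem_inn_of_mem L hβ
        rw [hIK] at hx
        exact ⟨x, hx, rfl⟩
    · by_contra hne
      have hK' := (inv_iff L K).1 hK.1
      by_cases hT : centralizer (K : Set F) = ⊤
      · apply hnc
        intro a _ b hb
        have ha : a ∈ centralizer (K : Set F) := by rw [hT]; trivial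
        exact ((mem_centralizer_iff.1 ha) b hb).symm
      · have h1 : centralizer (K : Set F) = K := by
          apply huniq
          exact ⟨(inv_iff L _).2 (centralizer_inv L K hK'), hne, hT⟩
        apply hnc
        intro a ha b hb
        rw [← h1] at ha
        exact ((mem_centralizer_iff.1 ha) b hb).symm

end Pool.Agent.Results.MP_15b176_al.MaximalityCriterion
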